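import Pool.Agent.X297.BF.Main

/-!
# Tate classes on the powers of an abelian variety over a finite field: an explicit bound

Let `A` be an abelian variety of dimension `g` over a finite field and `D` a common multiple of the
denominators of the slopes of the Frobenius endomorphism; one can always take `D = max 2 g!`. Let
`N = 2 max (2, g ^ 2 (g D) ^ g)`. Then

* all Tate classes on all powers of `A` (over all finite extensions) are polynomials in pull-backs of
  Tate classes on `A, A², …, A^N`;
* if the Tate conjecture holds for `A, A², …, A^N`, then it holds for all powers of `A`;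
* if the Tate classes on `A, …, A^N` are polynomials in Tate classes of degree `2`, then this holds for
  all powers of `A`.

`ℓ`-adic cohomology with coefficients extended to `ℚ̄_ℓ` is a Weil cohomology `W`; the Galois group of
a finite field acts semisimply on the cohomology of an abelian variety (Weil), so that `H^1(A)` has a
basis of eigenvectors, and the product of the eigenvalues `α` and `q / α` is `q` for a suitable
numbering (polarization, functional equation).
-/

open CategoryTheory AlgebraicGeometry

universe u v w

namespace Pool.Agent.Results.MP_ee618e_ag.BoundedPowersTorus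

open Pool.Agent.H914 Pool.Agent.H914.VarClass Pool.Agent.H914.VarClass.Obj
  Pool.Agent.H914.WeilCohomology Pool.Agent.X297.TIL Pool.Agent.X297.GT Pool.Agent.X297.BF
open Pool.Agent.Y129 (pw)

theorem result {k : Type u} [Field k] {𝒱 : VarClass k} {ops : CycleOps 𝒱}
    (W : WeilCohomology.{u, v} ops) (A : 𝒱.Obj) {Γ : Type w} [Group Γ]
    (χ : Γ →* W.Kˣ) (G : GaloisPowers W A Γ χ) (Δ : Subgroup Γ) (hΔ : Δ.FiniteIndex)
    {S : Type} {D : ℕ} (H : WeightSystem (χ.comp Δ.subtype) S D) {g : ℕ}
    (hA : IsAbelian (A := W.H A) H (W.gr A) (G.act 0) g) :
    (∀ n j c, G.IsTateClass n j c →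
      c ∈ tateAlg G Set.univ (Set.Iio (abelianBound g D)) (pw A n)) ∧
    ((∀ m < abelianBound g D, G.TateFor m) → ∀ n, G.TateFor n) ∧
    ((∀ m < abelianBound g D, ∀ j c, G.IsTateClass m j c →
      c ∈ tateAlg G {1} Set.univ (pw A m)) →
      ∀ n j c, G.IsTateClass n j c → c ∈ tateAlg G {1} Set.univ (pw A n)) :=
  main hΔ hA

end Pool.Agent.Results.MP_ee618e_ag.BoundedPowersTorus
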