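import Pool.Agent.X312.FM.Lef

/-!
# A gap law for Tate classes and Lefschetz classes on `A × B ^ n` over finite fields

Let `A` and `B` be **any** abelian varieties over the algebraic closure of a finite field, and let
`ℓ` be **any** prime different from the characteristic. For an abelian variety `Z` consider the
spaces of the **Lefschetz classes** (the `ℚ_ℓ`-algebra generated by the divisor classes), of the
algebraic classes and of the Tate classes (the classes which are fixed by a power of the
Frobenius),

`Lef(Z) ⊂ Alg(Z) ⊂ Tate(Z) ⊂ ⊕_j H^(2 j)(Z, ℚ_ℓ(j))`.

Let `b = 2 ^ (2 dim B)` be the sum of the Betti numbers of `B`. For all `m ≥ 1`: **all Tate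
classes on** `A × B ^ m` **are algebraic, or for all** `n ≥ 1` **at least**

`(1 - 4 (m + 3) b ^ (m + 5) log (n + 1) / n) dim Lef(B ^ n)`

**Tate classes on** `A × B ^ n` **are linearly independent modulo the algebraic classes.** Nothing
is assumed on `A` and `B`, and it is not assumed that homological and numerical equivalence agree:
the dimension of the space of the Lefschetz classes is known (it is determined by the Lefschetz
group of `B`), and so this is an explicit bound. For example one Tate class on one product `A × B
^ m` which is not algebraic gives more than `c ^ n` independent ones on `A × B ^ n`, for every `c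
< b` and large `n`.

By theorems of Milne the push-forwards of Lefschetz classes on abelian varieties are Lefschetz
classes and the pairing on Lefschetz classes is nondegenerate; these are the hypotheses on the
class of varieties.

The proof. Identify the classes on `A × Z` with the homomorphisms `H(A) → H(Z)`. The families
`Alg(A × Z) ⊂ Tate(A × Z)` are stable under the correspondences in `Lef` from `Z` to `Z'`. If they
differ for `A × P`, `P = B ^ m`, one takes an idempotent Lefschetz correspondence `g` on `P` of
minimal rank which does not vanish on `Tate(A × P) / Alg(A × P)` and an element `z` of `g Tate(A ×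
P)` which is not algebraic. A correspondence `x` such that `x z` is algebraic has a nilpotent
compression `g x g`, so the trace of `g x` vanishes; therefore `dim Tate(A × Z) / Alg(A × Z)` is
at least the rank of the trace form `(u, v) ↦ tr (g v u)` on Lefschetz correspondences for all
`Z`, and for `Z = B ^ n` this rank is compared with `dim Lef(B ^ n)` by the log-convexity of the
sequence of these dimensions and by the symmetric group.
-/

set_option autoImplicit false

open CategoryTheory AlgebraicGeometry

universe u v w

namespace Pool.Agent.Results.MP_ee618e_ag.LefschetzGapLaw

open Pool.Agent.H914 VarClass Obj WeilCohomology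
open Pool.Agent.X312.FM (Has IsNondeg IndepMod dimOn gapBound lef alg IsFrob IsTateClass)
open Pool.Agent.Y133.Half (pw)

variable {k : Type u} [Field k] {𝒱 : VarClass k} {ops : CycleOps 𝒱}
  {W : WeilCohomology.{u, v} ops}

/-- The sum of the Betti numbers of `X`. -/
noncomputable def totalBetti (W : WeilCohomology.{u, v} ops) (X : 𝒱.Obj) : ℕ :=
  Module.finrank W.K (W.H X)

/-- **The gap law for Tate classes with Lefschetz classes.** In the intended use `𝒱` is the class of all
abelian varieties over the algebraic closure of a finite field, `lef W` and `alg W` are the families of
the Lefschetz classes and of the algebraic classes, `F` is the Frobenius on `⊕_j H^(2 j)(Z, ℚ_ℓ(j))`,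
and the classes fixed by a power of `F` are the Tate classes. Here `dimOn (lef W) Z` is the dimension of
the space of the Lefschetz classes on `Z`, and `pw X m` is the product of `m + 1` copies of `X`. -/
theorem result (hpush : ∀ {Y Z : 𝒱.Obj} (f : Y ⟶ Z) (c : W.H Y), Has (lef W) c →
      Has (lef W) (Pool.Agent.X312.FK.pf W f c))
    (F : ∀ Z : 𝒱.Obj, W.H Z → W.H Z) (hF : IsFrob F) (X Y : 𝒱.Obj)
    (hX : ∀ n, IsNondeg (lef W) (pw X n)) (m : ℕ) :
    (∀ x : W.H (Y.prod (pw X m)), IsTateClass F x → Has (alg W) x) ∨
    ∀ n : ℕ, IndepMod (fun x : W.H (Y.prod (pw X n)) => IsTateClass F x) (alg W _)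
      (gapBound (totalBetti W X) (dimOn (lef W) (pw X n)) m n) :=
  Pool.Agent.X312.FM.lef_law hpush hF X Y hX m

end Pool.Agent.Results.MP_ee618e_ag.LefschetzGapLaw
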