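import Pool.Agent.X259.U.U39

set_option autoImplicit false

/-!
# Tate classes on abelian varieties over finite fields lift to characteristic zero if more than half
# of them, in one degree, do

Let `A₀` be an abelian variety of dimension `g ≥ 1` over a finite field `𝔽` with `q` elements, and
let `A` be a lift of `A₀`: an abelian variety over a number field (or another field) in the
field of complex numbers with good reduction `A₀` at some place, with a polarization which lifts a
polarization of `A₀`. For example, `A₀` has such a lift with complex multiplication after an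
isogeny and a finite extension of `𝔽` (Honda), and the canonical lift if `A₀` is ordinary. Let
`W = H_1(A(ℂ), ℚ)` be the rational homology, `T` the tangent space, `per` the inclusion of `W` in `T`,
and `ω₀` the Riemann form of the polarization. The rational Tate module of `A₀`, for a prime number
`ℓ` which does not divide `q`, is `ℚ_ℓ ⊗ W`, with the action `ρ` of the Galois group `Γ` of `𝔽` (or of
the group generated by the Frobenius), and the Weil pairing `ω` is the extension of `ω₀`; `χ` is the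
cyclotomic character.

The classes in `H^1 ^ {⊗ 2 m} (m)` are the multilinear forms in `2 m` variables (indexed by
`Fin m × Fin 2`) in `W` or `ℚ_ℓ ⊗ W`. The space `H^{2m}(A₀ ^ n)(m)` is a direct summand of a sum of copies
of `H^1(A₀) ^ {⊗ 2 m} (m)`, by algebraic projectors, and the latter is a direct summand of
`H^{2m}(A₀ ^ (2 m)) (m)`; so the Tate conjecture for all powers of `A₀` in codimension `m` says that all
Tate classes in `H^1(A₀) ^ {⊗ 2 m} (m)` are algebraic, and the Tate conjecture for `A₀` follows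
from this for all `m ≤ g`.

Let `C m` be spaces of classes in `H^1(A) ^ {⊗ 2 m} (m)` which form a closed family
(`IsClosedFamily`), are Hodge classes on `A`, and specialize to Tate classes on `A₀`. Examples:

* the classes of algebraic cycles on `A` (Lieberman); they specialize to classes of algebraic cycles
  on `A₀`;
* the combinations of products of divisor classes on `A` (Milne);
* all Hodge classes on `A` (Deligne).

**Theorem.** Let `r, c ≥ 1` and `m ≥ 256 c g ^ 3 r ^ 2 (⌊log₂ (4 g c r)⌋ + 1)` be integers, and suppose that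
`dim TateSpace m ≤ (2 - 1 / c) dim C m`, where `TateSpace m` is the space of the Tate classes on `A₀` in
`H^1(A₀) ^ {⊗ 2 m} (m)`. Then for all `m' ≤ r` all Tate classes on `A₀` in `H^1(A₀) ^ {⊗ 2 m'} (m')` are
combinations of specializations of classes in `C m'`, and the rational classes on `A` with Tate
specialization are the classes in `C m'`.

So the Tate conjecture is true for `A₀` (`r = g`) and for all powers of `A₀` in codimension at most `r`
if, for one lift `A` and one such `m`, two thirds of the Tate classes on `A₀` in `H^1 ^ {⊗ 2 m} (m)`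
are specializations of classes of algebraic cycles (for example of products of divisors) on `A`.
The number `dim TateSpace m` depends only on the eigenvalues `α_1, …, α_{2g}` of the Frobenius: it
is the number of the `2 m`-tuples of indices such that `α_{i_1} ⋯ α_{i_{2m}} / q ^ m` is a root
of unity. If the Tate conjecture is not true for `A₀` then, for all lifts and for all `m`
above the bound (`r = g`), which is polynomial in `g`, almost half of the Tate classes on `A₀` in
`H^1 ^ {⊗ 2 m} (m)` do not come from cycles on the lift.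

For the family of all Hodge classes the theorem says that the Tate classes on `A₀` are specializations
of Hodge classes on the one abelian variety `A`, in low degrees. (By Milne, the Hodge conjecture
for all abelian varieties with complex multiplication implies the Tate conjecture for abelian
varieties over finite fields; here only Hodge classes on powers of one lift `A` are needed.)

The proof. We embed `ℚ_ℓ` in the field of complex numbers. The complex combinations of the classes in
`C m` are the invariants of a compact group `G` of unitary symplectic matrices (positivity of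
the polarization in characteristic zero, first fundamental theorem, Haar integration). The complex
Tate tensors are a family which is stable under permutations, products and contractions, but there
is no positivity. Suppose that there is a Tate tensor `F ≠ 0` of degree `2 m' ≤ 2 r` which
is orthogonal to the invariants of `G`. The operator `M = ∫ ⟨F, g F⟩ g dg` on the tensors of
degree `2 m` is the average over `G` of `x ⊗ F^*`, contracted with `F`; so its values are Tate
tensors, and it vanishes after averaging over `G`, so `tr M ≤ ⟨F, F⟩ (dim TateSpace m - dim C m)`. On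
the other hand, the trace is `∫ ⟨F, g F⟩ (tr g) ^ {2 m} dg`; if the eigenvalues of `g` or `- g` have
arguments at most `θ` then `Re ⟨F, g F⟩ ≥ cos (2 r θ) ⟨F, F⟩`, and otherwise
`|tr g| ≤ 2 g - 2 (1 - cos θ)`, and `dim C m ≥ (2 g) ^ {2 m} / (m + 1) ^ {4 g ^ 2}`, a contradiction for
`(2 r θ) ^ 2 = 1 / c`.
-/

noncomputable section

namespace Pool.Agent.Results.MP_ee618e_ag.LiftsOfTateClasses

open Module TensorProduct Pool.Agent.H204R3.GP Pool.Agent.W516.MTD

variable {ℓ : ℕ} [Fact ℓ.Prime] {W T : Type} [AddCommGroup W] [Module ℚ W] [AddCommGroup T]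
  [Module ℂ T] {Γ : Type} [Group Γ]

/-- The rational classes in `H^1(A) ^ {⊗ 2 m} (m)`. -/
abbrev RatForm (W : Type) [AddCommGroup W] [Module ℚ W] (m : ℕ) : Type :=
  MultilinearMap ℚ (fun _ : Fin m × Fin 2 => W) ℚ

/-- The classes in `H^1(A₀, ℚ_ℓ) ^ {⊗ 2 m} (m)`. -/
abbrev Form (ℓ : ℕ) [Fact ℓ.Prime] (W : Type) [AddCommGroup W] [Module ℚ W] (m : ℕ) : Type :=
  MultilinearMap ℚ_[ℓ] (fun _ : Fin m × Fin 2 => ℚ_[ℓ] ⊗[ℚ] W) ℚ_[ℓ]

/-- `φ` is the specialization (extension) of the rational class `ψ`. -/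
def Extends {m : ℕ} (ψ : RatForm W m) (φ : Form ℓ W m) : Prop :=
  ∀ v : Fin m × Fin 2 → W, φ (fun l => (1 : ℚ_[ℓ]) ⊗ₜ[ℚ] v l) = ((ψ v : ℚ) : ℚ_[ℓ])

/-- The space of the linear combinations, with coefficients in `ℚ_ℓ`, of the classes in `C`. -/
def Span (ℓ : ℕ) [Fact ℓ.Prime] {m : ℕ} (C : Submodule ℚ (RatForm W m)) :
    Submodule ℚ_[ℓ] (Form ℓ W m) :=
  Submodule.span ℚ_[ℓ] {φ : Form ℓ W m | ∃ ψ ∈ C, Extends ψ φ}

/-- The vectors `v` (for the first `m` pairs of variables), and `x, y` for the last pair. -/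
def addPair {m : ℕ} (v : Fin m × Fin 2 → W) (x y : W) : Fin (m + 1) × Fin 2 → W :=
  fun p => Fin.lastCases (motive := fun _ => W) (![x, y] p.2) (fun j => v (j, p.2)) p.1

/-- The spaces `C m` are stable under products. -/
def StableProducts (C : ∀ m : ℕ, Submodule ℚ (RatForm W m)) : Prop :=
  ∀ (m m' : ℕ), ∀ ψ ∈ C m, ∀ ψ' ∈ C m', ∀ ψ'' : RatForm W (m + m'),
    (∀ v, ψ'' v = ψ (fun p => v (Fin.castAdd m' p.1, p.2)) *
      ψ' (fun p => v (Fin.natAdd m p.1, p.2))) → ψ'' ∈ C (m + m')

/-- The spaces `C m` are stable under the contraction of the last two variables with the inverse of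
the form `ω₀`, which is given by dual families `β`, `β'`. -/
def StableContraction (ω₀ : LinearMap.BilinForm ℚ W) (C : ∀ m : ℕ, Submodule ℚ (RatForm W m)) :
    Prop :=
  ∀ β β' : Fin (finrank ℚ W) → W, (∀ w : W, w = ∑ i, ω₀ w (β' i) • β i) →
    ∀ (m : ℕ), ∀ ψ ∈ C (m + 1), ∀ ψ' : RatForm W m,
      (∀ v, ψ' v = ∑ i, ψ (addPair v (β i) (β' i))) → ψ' ∈ C m

/-- The spaces `C m` of classes in `H^1(A) ^ {⊗ 2 m} (m)` form a closed family. -/
structure IsClosedFamily (ω₀ : LinearMap.BilinForm ℚ W)
    (C : ∀ m : ℕ, Submodule ℚ (RatForm W m)) : Prop where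
  one : ∀ ψ : RatForm W 0, (∀ v, ψ v = 1) → ψ ∈ C 0
  polarization : ∀ ψ : RatForm W 1, (∀ v, ψ v = ω₀ (v (0, 0)) (v (0, 1))) → ψ ∈ C 1
  perm : ∀ (m : ℕ) (σ : Equiv.Perm (Fin m × Fin 2)), ∀ ψ ∈ C m, ψ.domDomCongr σ ∈ C m
  prod : StableProducts C
  contraction : StableContraction ω₀ C

/-- The space of the Tate classes in `H^1(A₀) ^ {⊗ 2 m} (m)`: the forms `φ` with
`φ (s v) = χ (s) ^ m φ (v)` for `s` in a subgroup of finite index of `Γ`. -/
def TateSpace (ρ : Representation ℚ_[ℓ] Γ (ℚ_[ℓ] ⊗[ℚ] W)) (χ : Γ →* ℚ_[ℓ]) (m : ℕ) :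
    Submodule ℚ_[ℓ] (Form ℓ W m) where
  carrier := {φ | IsTateTensor ρ χ m φ}
  zero_mem' := ⟨⊤, inferInstance, fun s _ v => by simp⟩
  add_mem' := by
    rintro a b ⟨Δ, hΔ, h⟩ ⟨Δ', hΔ', h'⟩
    refine ⟨Δ ⊓ Δ', inferInstance, fun s hs v => ?_⟩
    rw [add_apply, add_apply, h s hs.1, h' s hs.2, mul_add]
  smul_mem' := by
    rintro c a ⟨Δ, hΔ, h⟩
    refine ⟨Δ, hΔ, fun s hs v => ?_⟩
    rw [smul_apply, smul_apply, h s hs, smul_eq_mul, smul_eq_mul, mul_left_comm]

/-- The dimension of a space of classes with coefficients in `ℚ_ℓ`. -/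
def dimT {m : ℕ} (L : Submodule ℚ_[ℓ] (Form ℓ W m)) : ℕ := finrank ℚ_[ℓ] L

/-- The dimension of a space of rational classes. -/
def dimC {m : ℕ} (L : Submodule ℚ (RatForm W m)) : ℕ := finrank ℚ L

/-- The specialization of the rational class `ψ` is a Tate class. -/
def HasTateExtension (ρ : Representation ℚ_[ℓ] Γ (ℚ_[ℓ] ⊗[ℚ] W)) (χ : Γ →* ℚ_[ℓ]) {m : ℕ}
    (ψ : RatForm W m) : Prop :=
  ∀ φ : Form ℓ W m, Extends ψ φ → φ ∈ TateSpace ρ χ m

/-- The abelian variety `A₀` and its lift `A`: the complex torus of dimension `g` with a polarization,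
the action of the Galois group of the finite field on the Tate module, the Weil pairing, and the
closed family `C` of Hodge classes on `A` with Tate specializations. -/
structure IsLift [FiniteDimensional ℚ W] (g : ℕ) (per : W →+ T) (ω₀ : LinearMap.BilinForm ℚ W)
    (ρ : Representation ℚ_[ℓ] Γ (ℚ_[ℓ] ⊗[ℚ] W)) (χ : Γ →* ℚ_[ℓ])
    (ω : LinearMap.BilinForm ℚ_[ℓ] (ℚ_[ℓ] ⊗[ℚ] W)) (C : ∀ m : ℕ, Submodule ℚ (RatForm W m)) :
    Prop where
  pos : 1 ≤ g
  dim : finrank ℂ T = g
  rational : IsRationalStructure per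
  riemann : IsRiemannForm per ω₀
  weil : ∀ u v : W, ω ((1 : ℚ_[ℓ]) ⊗ₜ[ℚ] u) ((1 : ℚ_[ℓ]) ⊗ₜ[ℚ] v) = ((ω₀ u v : ℚ) : ℚ_[ℓ])
  equivariant : ∀ s u v, ω (ρ s u) (ρ s v) = χ s * ω u v
  closed : IsClosedFamily ω₀ C
  isHodge : ∀ m, ∀ ψ ∈ C m, IsHodgeTensor per ψ
  isTate : ∀ m, ∀ ψ ∈ C m, HasTateExtension ρ χ ψ

/-- Rational classes whose extension is in the span of `C` are in `C`. -/
theorem rat_mem [FiniteDimensional ℚ W] {m : ℕ} {C : Submodule ℚ (RatForm W m)} {ψ : RatForm W m}
    (h : ∀ φ : Form ℓ W m, Extends ψ φ → φ ∈ Span ℓ C) : ψ ∈ C := by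
  classical
  let b := Module.finBasis ℚ W
  have hb : Extends (ℓ := ℓ) ψ (Pool.Agent.H204R3.SP.bcm (Ω := ℚ_[ℓ]) b ψ) := fun v => by
    rw [← eq_ratCast (algebraMap ℚ ℚ_[ℓ])]
    exact Pool.Agent.H204R3.SP.bcm_one b ψ v
  obtain ⟨lam, hlam⟩ := LinearMap.exists_leftInverse_of_injective
    (Algebra.linearMap ℚ ℚ_[ℓ]) (LinearMap.ker_eq_bot.2 (algebraMap ℚ ℚ_[ℓ]).injective)
  have h2 := Pool.Agent.X259.Q.fcmp_mem C (h _ hb) lam
  have h3 : Pool.Agent.W516.DR.fcmp lam (Pool.Agent.H204R3.SP.bcm (Ω := ℚ_[ℓ]) b ψ) = ψ := by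
    ext v
    rw [Pool.Agent.W516.DR.fcmp_apply, hb v]
    have h4 := LinearMap.congr_fun hlam (ψ v)
    rw [LinearMap.comp_apply, Algebra.linearMap_apply, eq_ratCast, LinearMap.id_apply] at h4
    exact h4
  rwa [h3] at h2

/-- **Tate classes over finite fields lift if more than half of them, in one degree, do.** -/
theorem result [FiniteDimensional ℚ W] (g : ℕ) (per : W →+ T) (ω₀ : LinearMap.BilinForm ℚ W)
    (ρ : Representation ℚ_[ℓ] Γ (ℚ_[ℓ] ⊗[ℚ] W)) (χ : Γ →* ℚ_[ℓ])
    (ω : LinearMap.BilinForm ℚ_[ℓ] (ℚ_[ℓ] ⊗[ℚ] W)) (C : ∀ m : ℕ, Submodule ℚ (RatForm W m))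
    (hA : IsLift g per ω₀ ρ χ ω C) (r c m : ℕ) (hr : 1 ≤ r) (hc : 1 ≤ c)
    (hm : 256 * c * g ^ 3 * r ^ 2 * (Nat.log 2 (4 * g * c * r) + 1) ≤ m)
    (hmost : c * dimT (TateSpace ρ χ m) ≤ (2 * c - 1) * dimC (C m)) :
    ∀ m' ≤ r, TateSpace ρ χ m' = Span ℓ (C m') ∧
      ∀ ψ : RatForm W m', ψ ∈ C m' ↔ HasTateExtension ρ χ ψ := by
  classical
  obtain ⟨hg, hT, hper, hω₀, hωω, hωρ, hCC, hCH, hCT⟩ := hA
  obtain ⟨β, β', hβ⟩ := Pool.Agent.X259.T.exists_dual hper hω₀
  have hd := Pool.Agent.X259.T.finrank_two hper hT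
  have hC' : Pool.Agent.X259.T.Closed ω₀ β β' C :=
    { one := hCC.one
      pol := hCC.polarization
      perm := hCC.perm
      prod := hCC.prod
      contr := hCC.contraction β β' hβ }
  intro m' hm'
  have key : TateSpace ρ χ m' ≤ Span ℓ (C m') := by
    intro φ hφ
    refine Pool.Agent.X259.Q.mem_of_fcmp (C m') fun lam => ?_
    refine Pool.Agent.X259.U.tate_low hper hω₀ hβ hωω hωρ hC' hCH hCT (by omega) hr (k := c)
      (m := m) hc ?_ (TT := TateSpace ρ χ m) (fun φ hφ => hφ) hmost hm' φ hφ lam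
    rw [hd]
    have h1 : 2 * (2 * g) * c * r = 4 * g * c * r := by ring
    rw [h1]
    convert hm using 1
    ring
  refine ⟨le_antisymm key (Submodule.span_le.2 ?_), fun ψ => ⟨hCT m' ψ, fun h => ?_⟩⟩
  · rintro φ ⟨ψ, hψ, h⟩
    exact hCT m' ψ hψ φ h
  · exact rat_mem (ℓ := ℓ) fun φ hφ => key (h φ hφ)

end Pool.Agent.Results.MP_ee618e_ag.LiftsOfTateClasses
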